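import Pool.Agent.TH915.PA.Wt

/-!
# Metric prime laws for `⌊α ^ n x⌋`, `α > 1` (adapted from TH915/PC, helper915)
-/

set_option autoImplicit false

namespace Pool.Agent.TH915.PA

open Filter Topology MeasureTheory Finset

open scoped Classical

lemma bc {s t : ℝ} {E : ℕ → Set ℝ} (a : ℕ → ℝ) (ha : Summable a)
    (h : ∀ᶠ n in atTop, (volume.restrict (Set.Ioc s t)).real (E n) ≤ a n) :
    ∀ᵐ x ∂(volume.restrict (Set.Ioc s t)), ∀ᶠ n in atTop, x ∉ E n := by
  apply ae_eventually_notMem
  set μ := volume.restrict (Set.Ioc s t) with hμ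
  have hfin : IsFiniteMeasure μ := by rw [hμ]; infer_instance
  have h1 : Summable fun n => μ.real (E n) := by
    refine Summable.of_norm_bounded_eventually_nat ha ?_
    filter_upwards [h] with n hn
    rw [Real.norm_eq_abs, abs_of_nonneg measureReal_nonneg]
    exact hn
  have h2 : ∀ n, μ (E n) = ENNReal.ofReal (μ.real (E n)) := fun n =>
    (ofReal_measureReal (measure_ne_top μ _)).symm
  simp only [h2]
  exact h1.tsum_ofReal_ne_top

lemma ae_all_Ioc {P : ℝ → Prop} (h : ∀ s t : ℝ, 0 < s → s < t → ∀ᵐ x ∂(volume.restrict (Set.Ioc s t)), P x) :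
    ∀ᵐ x : ℝ, 0 < x → P x := by
  have h1 : ∀ k : ℕ, ∀ᵐ x : ℝ, x ∈ Set.Ioc (1 / ((k : ℝ) + 1)) ((k : ℝ) + 2) → P x := by
    intro k
    have h2 : (0 : ℝ) < 1 / ((k : ℝ) + 1) := by positivity
    have h3 : 1 / ((k : ℝ) + 1) < (k : ℝ) + 2 := by
      rw [div_lt_iff₀ (by positivity)]
      have : (0 : ℝ) ≤ k := Nat.cast_nonneg k
      nlinarith
    exact (ae_restrict_iff' measurableSet_Ioc).1 (h _ _ h2 h3)
  filter_upwards [ae_all_iff.2 h1] with x hx hx0
  obtain ⟨k, hk⟩ := exists_nat_gt (max (1 / x) x)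
  have hk1 := (le_max_left _ _).trans_lt hk
  have hk2 := (le_max_right _ _).trans_lt hk
  refine hx k ⟨?_, by linarith⟩
  have hk0 : (0 : ℝ) < (k : ℝ) + 1 := by positivity
  rw [div_lt_iff₀ hk0]
  rw [div_lt_iff₀ hx0] at hk1
  nlinarith

lemma meas_fn (α : ℝ) (n : ℕ) {s t : ℝ} (hst : s ≤ t) :
    (volume.restrict (Set.Ioc s t)).real {x | fn α n x = 1} = ∫ x in s..t, fn α n x := by
  have hm : MeasurableSet {x | fn α n x = 1} := measurable_fn α n (measurableSet_singleton 1)
  rw [intervalIntegral.integral_of_le hst]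
  have e : ∀ x, fn α n x = Set.indicator {x | fn α n x = 1} (fun _ => (1 : ℝ)) x := by
    intro x
    by_cases h : fn α n x = 1
    · rw [Set.indicator_of_mem (by exact h), h]
    · rw [Set.indicator_of_notMem (by exact h)]
      unfold fn ph at h ⊢
      split_ifs at h ⊢ with h1
      · exact absurd rfl h
      · rfl
  conv_rhs => enter [2, x]; rw [e x]
  rw [integral_indicator_const _ hm]
  simp

/-- the convergence half -/
theorem conv {α : ℝ} (hα : 1 < α) (S : Set ℕ)
    (hS : Summable fun n : ℕ => if n ∈ S then 1 / (n : ℝ) else 0) :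
    ∀ᵐ x : ℝ, 0 < x → ∀ᶠ n : ℕ in atTop, ¬ (n ∈ S ∧ fn α n x = 1) := by
  obtain ⟨K, hK, hb⟩ := bounds hα
  refine ae_all_Ioc fun s t hs hst => ?_
  obtain ⟨P, hP1, hP⟩ := hb s t hs hst
  refine bc (E := fun n => {x | n ∈ S ∧ fn α n x = 1})
    (fun n => K * (t - s) * (if n ∈ S then 1 / (n : ℝ) else 0)) (hS.mul_left _) ?_
  filter_upwards [eventually_ge_atTop P] with n hn
  by_cases h : n ∈ S
  · rw [if_pos h]
    have e : {x | n ∈ S ∧ fn α n x = 1} = {x | fn α n x = 1} := by
      ext x; simp [h]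
    rw [e, meas_fn α n hst.le]
    exact (hP n hn).1
  · rw [if_neg h]
    have e : {x | n ∈ S ∧ fn α n x = 1} = ∅ := by
      ext x; simp [h]
    rw [e]
    simp

lemma fn_iff (α x : ℝ) (n : ℕ) : fn α n x = 1 ↔ (⌊α ^ n * x⌋₊).Prime := by
  unfold fn ph
  split_ifs with h
  · simp [h]
  · simp [h]

lemma XX_card (α x : ℝ) (N : ℕ) : XX α (fun _ => 1) N x =
    (((range N).filter (fun n => (⌊α ^ n * x⌋₊).Prime)).card : ℝ) := by
  unfold XX
  rw [← Finset.sum_boole]
  refine Finset.sum_congr rfl fun n _ => ?_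
  rw [one_mul]
  rfl

theorem law_alpha {α : ℝ} (hα : 1 < α) : ∀ᵐ x : ℝ, 0 < x →
    (∀ c : ℝ, c < 1 / Real.log α → ∃ᶠ N : ℕ in atTop, c * Real.log N <
      (((Finset.range (N + 1)).filter (fun n => (⌊α ^ n * x⌋₊).Prime)).card : ℝ)) ∧
    (∀ c : ℝ, 1 / Real.log α < c → ∃ᶠ N : ℕ in atTop,
      (((Finset.range (N + 1)).filter (fun n => (⌊α ^ n * x⌋₊).Prime)).card : ℝ) <
        c * Real.log N) := by
  have h1 := law_XX hα (w := fun _ => 1) (fun _ => zero_le_one) (fun _ => le_rfl)
    VV_one_tendsto H_one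
  filter_upwards [h1] with x hx1 hx0
  obtain ⟨a1, a2⟩ := hx1 hx0
  have hle : ∀ N : ℕ, XX α (fun _ => 1) (N + 1) x =
      (((Finset.range (N + 1)).filter (fun n => (⌊α ^ n * x⌋₊).Prime)).card : ℝ) := fun N =>
    XX_card α x (N + 1)
  have hlog : Tendsto (fun N : ℕ => Real.log (N : ℝ)) atTop atTop :=
    Real.tendsto_log_atTop.comp tendsto_natCast_atTop_atTop
  have hL : 0 < 1 / Real.log α := by
    have := Real.log_pos hα
    positivity
  constructor
  · intro c hc
    obtain ⟨c', hc1, hc2⟩ := exists_between (max_lt hc hL)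
    have hc0 : 0 < c' := (le_max_right _ _).trans_lt hc1
    have hcc : c < c' := (le_max_left _ _).trans_lt hc1
    have hf := a1 c' hc2
    rw [frequently_atTop] at hf ⊢
    intro a
    obtain ⟨b, hb⟩ := eventually_atTop.1 ((hlog.eventually_ge_atTop 0).and
      (eventually_ge_atTop 1))
    obtain ⟨M', hM1, hM2⟩ := hf (max a b + 1)
    obtain ⟨N, rfl⟩ : ∃ N, M' = N + 1 := ⟨M' - 1, by omega⟩
    have hNa : max a b ≤ N := by omega
    obtain ⟨hb1, hb2⟩ := hb N ((le_max_right _ _).trans hNa)
    refine ⟨N, (le_max_left _ _).trans hNa, ?_⟩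
    have h3 := hle N
    have h4 : Real.log N ≤ VV (fun _ => 1) (N + 1) := by
      rw [VV_one]
      refine le_trans (Real.log_le_log (by exact_mod_cast hb2) ?_) (le_hsum N)
      linarith
    have h5 : c' * Real.log N ≤ c' * VV (fun _ => 1) (N + 1) := mul_le_mul_of_nonneg_left h4 hc0.le
    have h7 : c * Real.log N ≤ c' * Real.log N := mul_le_mul_of_nonneg_right hcc.le hb1
    rw [← h3]
    linarith
  · intro c hc
    obtain ⟨c', hc1, hc2⟩ := exists_between hc
    have hc0 : 0 < c' := hL.trans hc1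
    have hf := a2 c' hc1
    rw [frequently_atTop] at hf ⊢
    intro a
    obtain ⟨b, hb⟩ := eventually_atTop.1 (hlog.eventually_ge_atTop (c' / (c - c')))
    obtain ⟨M', hM1, hM2⟩ := hf (max a b + 1)
    obtain ⟨N, rfl⟩ : ∃ N, M' = N + 1 := ⟨M' - 1, by omega⟩
    have hNa : max a b ≤ N := by omega
    have hb1 := hb N ((le_max_right _ _).trans hNa)
    refine ⟨N, (le_max_left _ _).trans hNa, ?_⟩
    have h3 := hle N
    have h4 : VV (fun _ => 1) (N + 1) ≤ 1 + Real.log N := by
      rw [VV_one]; exact hsum_le N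
    have h5 : c' * VV (fun _ => 1) (N + 1) ≤ c' * (1 + Real.log N) :=
      mul_le_mul_of_nonneg_left h4 hc0.le
    rw [div_le_iff₀ (by linarith)] at hb1
    rw [← h3]
    linarith

theorem fin_alpha {α : ℝ} (hα : 1 < α) (S : Set ℕ)
    (hS : Summable fun n : ℕ => if n ∈ S then 1 / (n : ℝ) else 0) :
    ∀ᵐ x : ℝ, 0 < x → {n : ℕ | n ∈ S ∧ (⌊α ^ n * x⌋₊).Prime}.Finite := by
  filter_upwards [conv hα S hS] with x hx1 hx0
  obtain ⟨n0, hn0⟩ := eventually_atTop.1 (hx1 hx0)
  refine (Set.finite_Iio n0).subset fun n hn => ?_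
  by_contra hcon
  have h1 : n0 ≤ n := not_lt.1 hcon
  exact hn0 n h1 ⟨hn.1, (fn_iff α x n).2 hn.2⟩

theorem inf_alpha {α : ℝ} (hα : 1 < α) (S : Set ℕ)
    (hS : ¬ Summable fun n : ℕ => if n ∈ S then 1 / ((n : ℝ) * Real.log n) else 0) :
    ∀ᵐ x : ℝ, 0 < x → {n : ℕ | n ∈ S ∧ (⌊α ^ n * x⌋₊).Prime}.Infinite := by
  have hV : Tendsto (VV (wS S)) atTop atTop := by
    refine (not_summable_iff_tendsto_nat_atTop_of_nonneg (f := fun n => wS S n * (1 / (n : ℝ)))
      (fun n => mul_nonneg (wS_nonneg S n) (by positivity))).1 fun hsum => hS ?_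
    refine Summable.of_nonneg_of_le (fun n => ?_) (fun n => ?_) (hsum.mul_left 3)
    · split_ifs
      · rcases Nat.eq_zero_or_pos n with rfl | hn
        · simp
        · have : 0 ≤ Real.log n := Real.log_nonneg (by exact_mod_cast hn)
          positivity
      · exact le_rfl
    · unfold wS
      split_ifs with h
      · rcases Nat.lt_or_ge n 2 with hn | hn
        · have h3 := log3 n
          have e : 1 / ((n : ℝ) * Real.log n) = 0 := by
            interval_cases n <;> simp
          rw [e]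
          positivity
        · have hn2 : (2 : ℝ) ≤ n := by exact_mod_cast hn
          have h3 := log3 n
          have hl : 0 < Real.log n := Real.log_pos (by linarith)
          have h4 : Real.log ((n : ℝ) + 3) ≤ 3 * Real.log n := by
            have : 3 * Real.log n = Real.log ((n : ℝ) ^ 3) := by rw [Real.log_pow]; norm_num
            rw [this]
            apply Real.log_le_log (by linarith)
            nlinarith [mul_self_nonneg ((n : ℝ) - 2), mul_nonneg (show (0 : ℝ) ≤ n by linarith)
              (mul_self_nonneg ((n : ℝ) - 2))]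
          have hn0 : (0 : ℝ) < n := by linarith
          have e : 3 * (1 / Real.log ((n : ℝ) + 3) * (1 / (n : ℝ))) =
              3 / (n * Real.log ((n : ℝ) + 3)) := by
            have : Real.log ((n : ℝ) + 3) ≠ 0 := by linarith
            field_simp
          rw [e, div_le_div_iff₀ (by positivity) (by positivity)]
          nlinarith
      · simp
  filter_upwards [law_XX hα (wS_nonneg S) (wS_le_one S) hV (H_S S)] with x hx1 hx0
  intro hfin
  obtain ⟨a1, _⟩ := hx1 hx0
  have hL : 0 < 1 / Real.log α := one_div_pos.2 (Real.log_pos hα)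
  have hf := a1 (1 / Real.log α / 2) (by linarith)
  obtain ⟨n1, hn1⟩ := hfin.bddAbove
  have hX : ∀ N, XX α (wS S) N x ≤ (n1 + 1 : ℕ) := by
    intro N
    unfold XX
    calc ∑ n ∈ range N, wS S n * fn α n x ≤
        ∑ n ∈ range N, (if n ∈ range (n1 + 1) then (1 : ℝ) else 0) := by
          refine Finset.sum_le_sum fun n _ => ?_
          split_ifs with h
          · exact mul_le_one₀ (wS_le_one S n) (fn_nonneg _ _ _) (fn_le_one _ _ _)
          · rw [Finset.mem_range, not_lt] at h
            have h2 : n1 + 1 ≤ n := h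
            by_cases hS : n ∈ S
            · have h3 : ¬ (⌊α ^ n * x⌋₊).Prime := fun hp => by
                have := hn1 (show n ∈ {n : ℕ | n ∈ S ∧ (⌊α ^ n * x⌋₊).Prime} from ⟨hS, hp⟩)
                omega
              have h4 : fn α n x = 0 := by
                unfold fn ph
                exact if_neg h3
              rw [h4, mul_zero]
            · unfold wS
              rw [if_neg hS, zero_mul]
      _ = (((range N).filter (fun n => n ∈ range (n1 + 1))).card : ℝ) := by
          rw [Finset.sum_boole]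
      _ ≤ _ := by
          have : ((range N).filter (fun n => n ∈ range (n1 + 1))).card ≤
              (range (n1 + 1)).card := by
            refine Finset.card_le_card fun n hn => ?_
            exact (Finset.mem_filter.1 hn).2
          rw [Finset.card_range] at this
          exact_mod_cast this
  obtain ⟨b, hb⟩ := eventually_atTop.1 (hV.eventually_ge_atTop
    (((n1 + 1 : ℕ) : ℝ) / (1 / Real.log α / 2)))
  rw [frequently_atTop] at hf
  obtain ⟨N, hN1, hN2⟩ := hf b
  have h1 := hb N hN1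
  rw [div_le_iff₀ (by linarith)] at h1
  have h2 := hX N
  linarith

end Pool.Agent.TH915.PA
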