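import Pool.Agent.TH915.PA.Scale
import Pool.Agent.TH915.PC.Ae

/-!
# First and second moments of weighted counts (adapted from TH915/PC, helper915)
-/

set_option autoImplicit false

namespace Pool.Agent.TH915.PA

open Filter Topology MeasureTheory Finset

open scoped Classical

/-- the weighted count -/
noncomputable def XX (α : ℝ) (w : ℕ → ℝ) (N : ℕ) (x : ℝ) : ℝ := ∑ n ∈ range N, w n * fn α n x

/-- the normalisation -/
noncomputable def VV (w : ℕ → ℝ) (N : ℕ) : ℝ := ∑ n ∈ range N, w n * (1 / (n : ℝ))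

lemma XX_measurable (α : ℝ) (w : ℕ → ℝ) (N : ℕ) : Measurable (XX α w N) :=
  Finset.measurable_sum _ fun n _ => (measurable_fn α n).const_mul _

lemma XX_nonneg {α : ℝ} {w : ℕ → ℝ} (hw : ∀ n, 0 ≤ w n) (N : ℕ) (x : ℝ) : 0 ≤ XX α w N x :=
  Finset.sum_nonneg fun n _ => mul_nonneg (hw n) (fn_nonneg α n x)

lemma XX_bdd {α : ℝ} {w : ℕ → ℝ} (_hw : ∀ n, 0 ≤ w n) (hw1 : ∀ n, w n ≤ 1) (N : ℕ) :
    ∀ x, XX α w N x ≤ N := by
  intro x
  calc XX α w N x ≤ ∑ _n ∈ range N, (1 : ℝ) :=
        Finset.sum_le_sum fun n _ => mul_le_one₀ (hw1 n) (fn_nonneg α n x) (fn_le_one α n x)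
    _ = N := by simp

/-- the mean -/
theorem mean_XX {α : ℝ} (hα : 1 < α) {w : ℕ → ℝ} (hw : ∀ n, 0 ≤ w n)
    (hV : Tendsto (VV w) atTop atTop) {s t : ℝ} (hs : 0 < s) (hst : s < t) :
    Tendsto (fun N => (∫ x in Set.Ioc s t, XX α w N x) / VV w N) atTop
      (𝓝 ((1 / Real.log α) * (t - s))) := by
  set B : ℝ := (1 / Real.log α) * (t - s) with hB
  set g : ℕ → ℝ := fun n => w n * (1 / (n : ℝ)) with hg
  set f : ℕ → ℝ := fun n => w n * (∫ x in s..t, fn α n x) - B * g n with hf
  have hg0 : 0 ≤ g := fun n => mul_nonneg (hw n) (by positivity)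
  have hmean := mean_fn hα hs (hs.trans hst)
  have hfg : f =o[atTop] g := by
    rw [Asymptotics.isLittleO_iff]
    intro ε hε
    have h1 : ∀ᶠ n : ℕ in atTop, |(n : ℝ) * (∫ x in s..t, fn α n x) - B| < ε := by
      have := hmean.eventually (Metric.ball_mem_nhds B hε)
      filter_upwards [this] with n hn
      rw [Real.dist_eq] at hn
      exact hn
    filter_upwards [h1, eventually_gt_atTop 0] with n hn hn0
    have hn1 : (0 : ℝ) < n := by exact_mod_cast hn0
    have e : f n = g n * ((n : ℝ) * (∫ x in s..t, fn α n x) - B) := by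
      simp only [hf, hg]; field_simp
    rw [e, norm_mul, mul_comm, Real.norm_eq_abs (_ - _)]
    exact mul_le_mul_of_nonneg_right hn.le (norm_nonneg _)
  have hsum := hfg.sum_range hg0 hV
  have h2 := hsum.tendsto_div_nhds_zero
  have h3 := h2.add_const B
  rw [zero_add] at h3
  refine h3.congr' ?_
  filter_upwards [hV.eventually_gt_atTop 0] with N hN
  have hN' : 0 < ∑ i ∈ range N, g i := hN
  have e1 : ∫ x in Set.Ioc s t, XX α w N x = ∑ n ∈ range N, w n * (∫ x in s..t, fn α n x) := by
    rw [← intervalIntegral.integral_of_le hst.le]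
    unfold XX
    rw [intervalIntegral.integral_finsetSum fun n _ => (fn_ii α n s t).const_mul _]
    exact Finset.sum_congr rfl fun n _ => intervalIntegral.integral_const_mul _ _
  have e2 : VV w N = ∑ i ∈ range N, g i := rfl
  rw [e1, e2]
  have e3 : ∑ i ∈ range N, f i = ∑ n ∈ range N, w n * (∫ x in s..t, fn α n x) -
      B * ∑ i ∈ range N, g i := by
    simp only [hf]
    rw [Finset.sum_sub_distrib, Finset.mul_sum]
  rw [e3]
  field_simp
  ring

/-- the pair weights -/
noncomputable def qq (w : ℕ → ℝ) (n : ℕ) : ℝ :=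
  ∑ m ∈ range (n + 1), w m * w n * (1 / (m : ℝ) * (1 / ((n - m : ℕ) : ℝ)))

/-- the second moment -/
theorem second_XX {α : ℝ} (hα : 1 < α) : ∃ K : ℝ, 0 < K ∧ ∀ w : ℕ → ℝ, (∀ n, 0 ≤ w n) →
    (∀ n, w n ≤ 1) → Tendsto (VV w) atTop atTop →
    (∀ N, ∑ n ∈ range N, qq w n ≤ 2 * (1 + VV w N) ^ 2) → ∀ s t : ℝ, 0 < s → s < t →
    ∀ᶠ N in atTop, ∫ x in Set.Ioc s t, (XX α w N x) ^ 2 ≤ K * (t - s) * (VV w N) ^ 2 := by
  obtain ⟨K, hK, hb⟩ := bounds hα
  refine ⟨2 + 34 * K, by positivity, fun w hw hw1 hV hH s t hs hst => ?_⟩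
  obtain ⟨P, hP1, hP⟩ := hb s t hs hst
  have hts : 0 < t - s := by linarith
  set S : ℕ → ℝ → ℝ := fun N x => ∑ n ∈ Finset.Ico P N, w n * fn α n x with hS
  have hSm : ∀ N, Measurable (S N) := fun N =>
    Finset.measurable_sum _ fun n _ => (measurable_fn α n).const_mul _
  have hS0 : ∀ N x, 0 ≤ S N x := fun N x =>
    Finset.sum_nonneg fun n _ => mul_nonneg (hw n) (fn_nonneg α n x)
  have hSb : ∀ N x, |S N x| ≤ N := by
    intro N x
    rw [abs_of_nonneg (hS0 N x)]
    calc S N x ≤ ∑ _n ∈ Finset.Ico P N, (1 : ℝ) :=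
          Finset.sum_le_sum fun n _ => mul_le_one₀ (hw1 n) (fn_nonneg α n x) (fn_le_one α n x)
      _ = ((N - P : ℕ) : ℝ) := by simp
      _ ≤ N := by exact_mod_cast Nat.sub_le N P
  have hfb : ∀ n x, |fn α n x| ≤ 1 := fun n x => by
    rw [abs_of_nonneg (fn_nonneg α n x)]; exact fn_le_one α n x
  have hqn : ∀ n, 0 ≤ qq w n := fun n => Finset.sum_nonneg fun m _ =>
    mul_nonneg (mul_nonneg (hw m) (hw n)) (by positivity)
  have hind : ∀ N, P ≤ N → ∫ x in s..t, (S N x) ^ 2 ≤
      K * (t - s) * ∑ n ∈ Finset.Ico P N, (w n * (1 / (n : ℝ)) + 2 * qq w n) := by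
    intro N hN
    induction N, hN using Nat.le_induction with
    | base =>
      simp [hS]
    | succ N hN ih =>
      have e1 : ∀ x, (S (N + 1) x) ^ 2 = (S N x) * (S N x) + (2 * (S N x * (w N * fn α N x)) +
          (w N * fn α N x) * (w N * fn α N x)) := by
        intro x
        simp only [hS]
        rw [Finset.sum_Ico_succ_top hN]
        ring
      have hwm : Measurable (fun x => w N * fn α N x) := (measurable_fn α N).const_mul _
      have hwb : ∀ x, |w N * fn α N x| ≤ 1 := by
        intro x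
        rw [abs_of_nonneg (mul_nonneg (hw N) (fn_nonneg α N x))]
        exact mul_le_one₀ (hw1 N) (fn_nonneg α N x) (fn_le_one α N x)
      have i1 := mul_ii (hSm N) (hSm N) (hSb N) (hSb N) s t
      have i2 := mul_ii (hSm N) hwm (hSb N) hwb s t
      have i3 := mul_ii hwm hwm hwb hwb s t
      have e2 : ∫ x in s..t, (S (N + 1) x) ^ 2 = (∫ x in s..t, S N x * S N x) +
          (2 * (∫ x in s..t, S N x * (w N * fn α N x)) +
            ∫ x in s..t, (w N * fn α N x) * (w N * fn α N x)) := by
        simp only [e1]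
        rw [intervalIntegral.integral_add i1 ((i2.const_mul 2).add i3),
          intervalIntegral.integral_add (i2.const_mul 2) i3, intervalIntegral.integral_const_mul]
      have h1 : ∫ x in s..t, S N x * (w N * fn α N x) ≤ K * (t - s) * qq w N := by
        have e3 : ∀ x, S N x * (w N * fn α N x) =
            ∑ m ∈ Finset.Ico P N, (w m * w N) * (fn α m x * fn α N x) := by
          intro x
          simp only [hS]
          rw [Finset.sum_mul]
          exact Finset.sum_congr rfl fun m _ => by ring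
        simp only [e3]
        rw [intervalIntegral.integral_finsetSum fun m _ =>
          (mul_ii (measurable_fn α m) (measurable_fn α N) (hfb m) (hfb N) s t).const_mul _]
        calc ∑ m ∈ Finset.Ico P N, ∫ x in s..t, (w m * w N) * (fn α m x * fn α N x) =
            ∑ m ∈ Finset.Ico P N, (w m * w N) * ∫ x in s..t, fn α m x * fn α N x :=
              Finset.sum_congr rfl fun m _ => intervalIntegral.integral_const_mul _ _
          _ ≤ ∑ m ∈ Finset.Ico P N, (w m * w N) *
              (K * (t - s) * (1 / (m : ℝ) * (1 / ((N - m : ℕ) : ℝ)))) := by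
              refine Finset.sum_le_sum fun m hm => ?_
              rw [Finset.mem_Ico] at hm
              exact mul_le_mul_of_nonneg_left ((hP m hm.1).2 N hm.2) (mul_nonneg (hw m) (hw N))
          _ = K * (t - s) * ∑ m ∈ Finset.Ico P N, w m * w N *
              (1 / (m : ℝ) * (1 / ((N - m : ℕ) : ℝ))) := by
              rw [Finset.mul_sum]
              exact Finset.sum_congr rfl fun m _ => by ring
          _ ≤ K * (t - s) * qq w N := by
              apply mul_le_mul_of_nonneg_left _ (by positivity)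
              unfold qq
              refine Finset.sum_le_sum_of_subset_of_nonneg ?_ fun m _ _ =>
                mul_nonneg (mul_nonneg (hw m) (hw N)) (by positivity)
              intro m hm
              rw [Finset.mem_Ico] at hm
              rw [Finset.mem_range]
              omega
      have h2 : ∫ x in s..t, (w N * fn α N x) * (w N * fn α N x) ≤
          K * (t - s) * (w N * (1 / (N : ℝ))) := by
        calc ∫ x in s..t, (w N * fn α N x) * (w N * fn α N x) ≤ ∫ x in s..t, w N * fn α N x := by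
              refine intervalIntegral.integral_mono_on hst.le i3 ((fn_ii α N s t).const_mul _)
                fun x _ => ?_
              have h3 : 0 ≤ w N * fn α N x := mul_nonneg (hw N) (fn_nonneg α N x)
              have h4 := hwb x
              rw [abs_of_nonneg h3] at h4
              nlinarith
          _ = w N * ∫ x in s..t, fn α N x := intervalIntegral.integral_const_mul _ _
          _ ≤ w N * (K * (t - s) * (1 / (N : ℝ))) :=
              mul_le_mul_of_nonneg_left (hP N hN).1 (hw N)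
          _ = _ := by ring
      have e4 : ∫ x in s..t, S N x * S N x = ∫ x in s..t, (S N x) ^ 2 := by
        congr 1
        ext x
        ring
      rw [e2, e4, Finset.sum_Ico_succ_top hN, mul_add]
      calc (∫ x in s..t, (S N x) ^ 2) + (2 * (∫ x in s..t, S N x * (w N * fn α N x)) +
            ∫ x in s..t, (w N * fn α N x) * (w N * fn α N x)) ≤
          K * (t - s) * ∑ n ∈ Finset.Ico P N, (w n * (1 / (n : ℝ)) + 2 * qq w n) +
            (2 * (K * (t - s) * qq w N) + K * (t - s) * (w N * (1 / (N : ℝ)))) := by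
            gcongr
        _ = _ := by ring
  filter_upwards [eventually_ge_atTop P, hV.eventually_ge_atTop 1,
    hV.eventually_ge_atTop (P : ℝ)] with N hN hN1 hN2
  have hV0 : 0 < VV w N := by linarith
  rw [← intervalIntegral.integral_of_le hst.le]
  have hX : ∀ x, XX α w N x ≤ P + S N x := by
    intro x
    unfold XX
    rw [← Finset.sum_range_add_sum_Ico _ hN]
    refine add_le_add ?_ le_rfl
    exact XX_bdd hw hw1 P x
  have h1 : ∫ x in s..t, (XX α w N x) ^ 2 ≤ ∫ x in s..t, (2 * (P : ℝ) ^ 2 + 2 * (S N x) ^ 2) := by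
    have i1 : IntervalIntegrable (fun x => XX α w N x ^ 2) volume s t := by
      have := mul_ii (XX_measurable α w N) (XX_measurable α w N) (A := N) (B := N)
        (fun x => by rw [abs_of_nonneg (XX_nonneg hw N x)]; exact XX_bdd hw hw1 N x)
        (fun x => by rw [abs_of_nonneg (XX_nonneg hw N x)]; exact XX_bdd hw hw1 N x) s t
      simp only [pow_two]
      exact this
    have i2 : IntervalIntegrable (fun x => S N x ^ 2) volume s t := by
      have := mul_ii (hSm N) (hSm N) (hSb N) (hSb N) s t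
      simp only [pow_two]
      exact this
    refine intervalIntegral.integral_mono_on hst.le i1
      (intervalIntegrable_const.add (i2.const_mul 2)) fun x _ => ?_
    have h2 := hX x
    have h3 := XX_nonneg (α := α) hw N x
    have h4 := hS0 N x
    have hP0 : (0 : ℝ) ≤ P := Nat.cast_nonneg P
    nlinarith [sq_nonneg ((P : ℝ) - S N x)]
  have i2 : IntervalIntegrable (fun x => S N x ^ 2) volume s t := by
    have := mul_ii (hSm N) (hSm N) (hSb N) (hSb N) s t
    simp only [pow_two]
    exact this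
  have e5 : ∫ x in s..t, 2 * S N x ^ 2 = 2 * ∫ x in s..t, S N x ^ 2 :=
    intervalIntegral.integral_const_mul _ _
  rw [intervalIntegral.integral_add intervalIntegrable_const (i2.const_mul 2),
    e5, intervalIntegral.integral_const, smul_eq_mul] at h1
  have h2 := hind N hN
  have h3 : ∑ n ∈ Finset.Ico P N, (w n * (1 / (n : ℝ)) + 2 * qq w n) ≤
      VV w N + 4 * (1 + VV w N) ^ 2 := by
    calc ∑ n ∈ Finset.Ico P N, (w n * (1 / (n : ℝ)) + 2 * qq w n) ≤
        ∑ n ∈ range N, (w n * (1 / (n : ℝ)) + 2 * qq w n) := by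
          refine Finset.sum_le_sum_of_subset_of_nonneg ?_ fun n _ _ =>
            add_nonneg (mul_nonneg (hw n) (by positivity)) (mul_nonneg (by norm_num) (hqn n))
          intro n hn
          rw [Finset.mem_Ico] at hn
          exact Finset.mem_range.2 hn.2
      _ = VV w N + 2 * ∑ n ∈ range N, qq w n := by
          rw [Finset.sum_add_distrib, ← Finset.mul_sum]; rfl
      _ ≤ _ := by linarith [hH N]
  have h4 : VV w N + 4 * (1 + VV w N) ^ 2 ≤ 17 * (VV w N) ^ 2 := by nlinarith
  have h5 : (P : ℝ) ^ 2 ≤ (VV w N) ^ 2 := pow_le_pow_left₀ (Nat.cast_nonneg P) hN2 2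
  have h6 : K * (t - s) * ∑ n ∈ Finset.Ico P N, (w n * (1 / (n : ℝ)) + 2 * qq w n) ≤
      K * (t - s) * (17 * (VV w N) ^ 2) := mul_le_mul_of_nonneg_left (h3.trans h4) (by positivity)
  calc ∫ x in s..t, (XX α w N x) ^ 2 ≤ (t - s) * (2 * (P : ℝ) ^ 2) +
        2 * ∫ x in s..t, (S N x) ^ 2 := h1
    _ ≤ (t - s) * (2 * (VV w N) ^ 2) + 2 * (K * (t - s) * (17 * (VV w N) ^ 2)) := by
        gcongr
        exact h2.trans h6
    _ = _ := by ring

/-- the almost everywhere law for weighted counts -/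
theorem law_XX {α : ℝ} (hα : 1 < α) {w : ℕ → ℝ} (hw : ∀ n, 0 ≤ w n) (hw1 : ∀ n, w n ≤ 1)
    (hV : Tendsto (VV w) atTop atTop) (hH : ∀ N, ∑ n ∈ range N, qq w n ≤ 2 * (1 + VV w N) ^ 2) :
    ∀ᵐ x : ℝ, 0 < x → (∀ c : ℝ, c < 1 / Real.log α → ∃ᶠ N in atTop, c * VV w N < XX α w N x) ∧
      (∀ c : ℝ, 1 / Real.log α < c → ∃ᶠ N in atTop, XX α w N x < c * VV w N) := by
  obtain ⟨K, hK, hsec⟩ := second_XX hα
  have hα1 : 1 < α := hα
  have hL : 0 < 1 / Real.log α := one_div_pos.2 (Real.log_pos hα1)
  have h1 : ∀ b : ℕ, ∀ᵐ x : ℝ, x ∈ Set.Ioo (0 : ℝ) b →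
      (∀ c : ℝ, c < 1 / Real.log α → ∃ᶠ N in atTop, c * VV w N < XX α w N x) ∧
      (∀ c : ℝ, 1 / Real.log α < c → ∃ᶠ N in atTop, XX α w N x < c * VV w N) := fun b =>
    Pool.Agent.TH915.PC.law (X := XX α w) (V := VV w) (b0 := 0) (b1 := b) (L := 1 / Real.log α) (K := K) hV
      (XX_measurable α w) (fun N x => XX_nonneg hw N x) (fun N => ⟨N, XX_bdd hw hw1 N⟩)
      (fun s t hs hst _ => mean_XX hα1 hw hV hs hst) hL hK
      (fun s t hs hst _ => hsec w hw hw1 hV hH s t hs hst)
  filter_upwards [ae_all_iff.2 h1] with x hx hx0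
  obtain ⟨b, hb⟩ := exists_nat_gt x
  exact hx b ⟨hx0, hb⟩

end Pool.Agent.TH915.PA
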