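import Pool.Agent.TH915.PA.Base

/-!
# The events `⌊α ^ n x⌋` prime (adapted from TH915/PC, helper915)
-/

set_option autoImplicit false

namespace Pool.Agent.TH915.PA

open Filter Topology MeasureTheory Finset

open scoped Classical

/-- the `n`-th indicator -/
noncomputable def fn (α : ℝ) (n : ℕ) (x : ℝ) : ℝ := ph (α ^ n * x)

lemma fn_nonneg (α : ℝ) (n : ℕ) (x : ℝ) : 0 ≤ fn α n x := ph_nonneg _

lemma fn_le_one (α : ℝ) (n : ℕ) (x : ℝ) : fn α n x ≤ 1 := ph_le_one _

lemma measurable_fn (α : ℝ) (n : ℕ) : Measurable (fn α n) :=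
  measurable_ph.comp (measurable_const.mul measurable_id)

lemma int_fn {α : ℝ} (hα : 0 < α) (n : ℕ) (s t : ℝ) :
    ∫ x in s..t, fn α n x = (α ^ n)⁻¹ * ∫ y in (α ^ n * s)..(α ^ n * t), ph y := by
  unfold fn
  rw [intervalIntegral.integral_comp_mul_left _ (by positivity), smul_eq_mul]

/-- the mean of one event -/
theorem mean_one {α : ℝ} (hα : 1 < α) {t : ℝ} (ht : 0 < t) :
    Tendsto (fun n : ℕ => (n : ℝ) * ((α ^ n)⁻¹ * Ph (α ^ n * t))) atTop
      (𝓝 (t / Real.log α)) := by
  have hα0 : 0 < α := by linarith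
  have hlα : 0 < Real.log α := Real.log_pos hα
  have hY : Tendsto (fun n : ℕ => α ^ n * t) atTop atTop := by
    have h1 := tendsto_pow_atTop_atTop_of_one_lt hα
    exact h1.atTop_mul_const ht
  have h1 := Ph_tendsto.comp hY
  have h2 : Tendsto (fun n : ℕ => (n : ℝ) / Real.log (α ^ n * t)) atTop (𝓝 (1 / Real.log α)) := by
    have e : ∀ n : ℕ, Real.log (α ^ n * t) = n * Real.log α + Real.log t := by
      intro n
      rw [Real.log_mul (by positivity) (by positivity), Real.log_pow]
    have h3 : Tendsto (fun n : ℕ => Real.log α + Real.log t * (1 / (n : ℝ))) atTop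
        (𝓝 (Real.log α + Real.log t * 0)) :=
      tendsto_const_nhds.add ((tendsto_one_div_atTop_nhds_zero_nat).const_mul _)
    rw [mul_zero, add_zero] at h3
    have h4 := (h3.inv₀ hlα.ne')
    rw [← one_div] at h4
    refine h4.congr' ?_
    filter_upwards [eventually_gt_atTop 0, hY.eventually_gt_atTop 1] with n hn hn1
    have hn0 : (0 : ℝ) < n := by exact_mod_cast hn
    have hl : 0 < Real.log (α ^ n * t) := Real.log_pos hn1
    rw [e] at hl ⊢
    have e2 : Real.log α + Real.log t * (1 / (n : ℝ)) =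
        (n * Real.log α + Real.log t) / n := by field_simp
    rw [e2, inv_div]
  have h3 := (h1.mul h2).const_mul t
  simp only [Function.comp, one_mul] at h3
  rw [mul_one_div] at h3
  refine h3.congr' ?_
  filter_upwards [hY.eventually_gt_atTop 1] with n hn1
  have hl : 0 < Real.log (α ^ n * t) := Real.log_pos hn1
  have h4 : 0 < α ^ n := by positivity
  generalize Real.log (α ^ n * t) = l at hl ⊢
  generalize Ph (α ^ n * t) = w
  field_simp

theorem mean_fn {α : ℝ} (hα : 1 < α) {s t : ℝ} (hs : 0 < s) (ht : 0 < t) :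
    Tendsto (fun n : ℕ => (n : ℝ) * ∫ x in s..t, fn α n x) atTop
      (𝓝 ((1 / Real.log α) * (t - s))) := by
  have h1 := (mean_one hα ht).sub (mean_one hα hs)
  have e : t / Real.log α - s / Real.log α = (1 / Real.log α) * (t - s) := by ring
  rw [e] at h1
  refine h1.congr fun n => ?_
  rw [int_fn (by linarith), ← Ph_sub]
  ring

lemma integrable_pair (θ : ℝ) (u v : ℝ) : IntervalIntegrable (fun y => ph y * ph (θ * y)) volume u v := by
  have h : ∀ u v : ℝ, IntegrableOn (fun y => ph y * ph (θ * y)) (Set.Ioc u v) := by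
    intro u v
    refine Measure.integrableOn_of_bounded (M := 1) (by simp)
      ((measurable_ph.mul (measurable_ph.comp (measurable_const.mul measurable_id))).aestronglyMeasurable) ?_
    exact Eventually.of_forall fun x => by
      rw [Real.norm_eq_abs, abs_of_nonneg (mul_nonneg (ph_nonneg _) (ph_nonneg _))]
      exact mul_le_one₀ (ph_le_one _) (ph_nonneg _) (ph_le_one _)
  rcases le_total u v with h1 | h1
  · exact (intervalIntegrable_iff_integrableOn_Ioc_of_le h1).2 (h u v)
  · exact ((intervalIntegrable_iff_integrableOn_Ioc_of_le h1).2 (h v u)).symm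

lemma fn_ii (α : ℝ) (n : ℕ) (s t : ℝ) : IntervalIntegrable (fn α n) volume s t := by
  have h : ∀ s t : ℝ, IntegrableOn (fn α n) (Set.Ioc s t) := by
    intro s t
    refine Measure.integrableOn_of_bounded (M := 1) (by simp) (measurable_fn α n).aestronglyMeasurable ?_
    exact Eventually.of_forall fun x => by
      rw [Real.norm_eq_abs, abs_of_nonneg (fn_nonneg α n x)]
      exact fn_le_one α n x
  rcases le_total s t with h1 | h1
  · exact (intervalIntegrable_iff_integrableOn_Ioc_of_le h1).2 (h s t)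
  · exact ((intervalIntegrable_iff_integrableOn_Ioc_of_le h1).2 (h t s)).symm

lemma mul_ii {f g : ℝ → ℝ} (hf : Measurable f) (hg : Measurable g) {A B : ℝ}
    (hfb : ∀ x, |f x| ≤ A) (hgb : ∀ x, |g x| ≤ B) (s t : ℝ) :
    IntervalIntegrable (fun x => f x * g x) volume s t := by
  have h : ∀ s t : ℝ, IntegrableOn (fun x => f x * g x) (Set.Ioc s t) := by
    intro s t
    refine Measure.integrableOn_of_bounded (M := A * B) (by simp) (hf.mul hg).aestronglyMeasurable ?_
    exact Eventually.of_forall fun x => by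
      rw [Real.norm_eq_abs, abs_mul]
      exact mul_le_mul (hfb x) (hgb x) (abs_nonneg _) ((abs_nonneg _).trans (hfb x))
  rcases le_total s t with h1 | h1
  · exact (intervalIntegrable_iff_integrableOn_Ioc_of_le h1).2 (h s t)
  · exact ((intervalIntegrable_iff_integrableOn_Ioc_of_le h1).2 (h t s)).symm

/-- single events and pairs -/
theorem bounds {α : ℝ} (hα : 1 < α) : ∃ K : ℝ, 0 < K ∧ ∀ s t : ℝ, 0 < s → s < t →
    ∃ P : ℕ, 1 ≤ P ∧ ∀ m ≥ P, ∫ x in s..t, fn α m x ≤ K * (t - s) * (1 / (m : ℝ)) ∧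
      ∀ n > m, ∫ x in s..t, fn α m x * fn α n x ≤ K * (t - s) * (1 / (m : ℝ) * (1 / ((n - m : ℕ) : ℝ))) := by
  obtain ⟨C, hC, hbt⟩ := bt
  have hα0 : 0 < α := by linarith
  have hlα : 0 < Real.log α := Real.log_pos hα
  have hl2 : 0 < Real.log 2 := Real.log_pos (by norm_num)
  set H : ℝ := Real.log 2 / Real.log α with hH
  have hH0 : 0 < H := by positivity
  set K0 : ℝ := 2 * C / Real.log α + 2 * C ^ 2 / Real.log α ^ 2 with hK0
  have hK00 : 0 < K0 := by positivity
  refine ⟨K0 * (H + 2), by positivity, fun s t hs hst => ?_⟩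
  have hK1 : K0 ≤ K0 * (H + 2) := le_mul_of_one_le_right hK00.le (by linarith)
  have hK2 : K0 * H ≤ K0 * (H + 2) := mul_le_mul_of_nonneg_left (by linarith) hK00.le
  have hts : 0 < t - s := by linarith
  -- choose P
  have hev : ∀ᶠ m : ℕ in atTop, 1 ≤ m ∧ 2 ≤ α ^ m * (t - s) ∧
      (m : ℝ) / 2 * Real.log α ≤ Real.log (α ^ m * (t - s)) := by
    have hY : Tendsto (fun n : ℕ => α ^ n * (t - s)) atTop atTop := by
      have h1 := tendsto_pow_atTop_atTop_of_one_lt hα
      exact h1.atTop_mul_const hts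
    have h2 : Tendsto (fun n : ℕ => (n : ℝ) * (Real.log α / 2)) atTop atTop :=
      tendsto_natCast_atTop_atTop.atTop_mul_const (by positivity)
    filter_upwards [eventually_ge_atTop 1, hY.eventually_ge_atTop 2,
      h2.eventually_ge_atTop (-Real.log (t - s))] with m h3 h4 h5
    refine ⟨h3, h4, ?_⟩
    have e : Real.log (α ^ m * (t - s)) = m * Real.log α + Real.log (t - s) := by
      rw [Real.log_mul (by positivity) (by positivity), Real.log_pow]
    rw [e]
    linarith
  obtain ⟨P, hP⟩ := eventually_atTop.1 hev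
  refine ⟨max P 1, le_max_right _ _, fun m hm => ?_⟩
  obtain ⟨hm1, hm2, hm3⟩ := hP m ((le_max_left _ _).trans hm)
  have hm0 : (0 : ℝ) < m := by exact_mod_cast hm1
  set σ : ℝ := α ^ m with hσ
  have hσ0 : 0 < σ := by positivity
  have hσts : σ * t - σ * s = σ * (t - s) := by ring
  obtain ⟨b1, b2⟩ := hbt (σ * s) (σ * t) (by positivity) (by rw [hσts]; exact hm2)
  rw [hσts] at b1 b2
  have hl0 : 0 < (m : ℝ) / 2 * Real.log α := by positivity
  have hB : C * (σ * (t - s)) / Real.log (σ * (t - s)) ≤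
      σ * ((2 * C / Real.log α) * (t - s) * (1 / (m : ℝ))) := by
    calc C * (σ * (t - s)) / Real.log (σ * (t - s)) ≤ C * (σ * (t - s)) / ((m : ℝ) / 2 * Real.log α) :=
          div_le_div_of_nonneg_left (by positivity) hl0 hm3
      _ = _ := by field_simp
  have hsingle : ∫ x in s..t, fn α m x ≤ K0 * (t - s) * (1 / (m : ℝ)) := by
    rw [int_fn hα0]
    calc σ⁻¹ * ∫ y in (σ * s)..(σ * t), ph y ≤
        σ⁻¹ * (σ * ((2 * C / Real.log α) * (t - s) * (1 / (m : ℝ)))) := by
          apply mul_le_mul_of_nonneg_left (b2.trans hB) (by positivity)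
      _ = (2 * C / Real.log α) * (t - s) * (1 / (m : ℝ)) := by field_simp
      _ ≤ K0 * (t - s) * (1 / (m : ℝ)) := by
          have : 0 ≤ 2 * C ^ 2 / Real.log α ^ 2 := by positivity
          have h2 : 2 * C / Real.log α ≤ K0 := by rw [hK0]; linarith
          gcongr
  constructor
  · exact hsingle.trans (by gcongr)
  · intro n hn
    set h : ℕ := n - m with hh
    have hh1 : 1 ≤ h := by omega
    have hh0 : (0 : ℝ) < h := by exact_mod_cast hh1
    have hnm : n = m + h := by omega
    set θ : ℝ := α ^ h with hθ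
    have hθ0 : 0 < θ := by positivity
    have hlθ : Real.log θ = h * Real.log α := by rw [hθ, Real.log_pow]
    have hlθ0 : 0 < Real.log θ := by rw [hlθ]; positivity
    rcases lt_or_ge θ 2 with hθ2 | hθ2
    · have hlt : (h : ℝ) * Real.log α < Real.log 2 := by
        rw [← hlθ]; exact Real.log_lt_log hθ0 hθ2
      have hH1 : 1 ≤ H * (1 / (h : ℝ)) := by
        rw [hH, mul_one_div, div_div, le_div_iff₀ (by positivity)]
        linarith
      have hab : ∀ k x, |fn α k x| ≤ 1 := fun k x => by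
        rw [abs_of_nonneg (fn_nonneg α k x)]; exact fn_le_one α k x
      calc ∫ x in s..t, fn α m x * fn α n x ≤ ∫ x in s..t, fn α m x :=
            intervalIntegral.integral_mono_on hst.le
              (mul_ii (measurable_fn α m) (measurable_fn α n) (hab m) (hab n) s t) (fn_ii α m s t)
              fun x _ => mul_le_of_le_one_right (fn_nonneg α m x) (fn_le_one α n x)
        _ ≤ K0 * (t - s) * (1 / (m : ℝ)) := hsingle
        _ ≤ K0 * (t - s) * (1 / (m : ℝ)) * (H * (1 / (h : ℝ))) :=
            le_mul_of_one_le_right (by positivity) hH1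
        _ = K0 * H * (t - s) * (1 / (m : ℝ) * (1 / (h : ℝ))) := by ring
        _ ≤ K0 * (H + 2) * (t - s) * (1 / (m : ℝ) * (1 / (h : ℝ))) := by gcongr
    have e1 : ∫ x in s..t, fn α m x * fn α n x =
        σ⁻¹ * ∫ y in (σ * s)..(σ * t), ph y * ph (θ * y) := by
      have e2 : ∀ x, fn α m x * fn α n x = (fun y => ph y * ph (θ * y)) (σ * x) := by
        intro x
        simp only [fn]
        rw [hnm, pow_add, ← hθ, ← hσ]
        congr 2
        rw [hσ]; ring
      simp only [e2]
      rw [intervalIntegral.integral_comp_mul_left (fun y => ph y * ph (θ * y)) hσ0.ne', smul_eq_mul]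
    -- cells
    have hcell : ∀ k : ℕ, ∫ y in (k : ℝ)..((k + 1 : ℕ) : ℝ), ph y * ph (θ * y) ≤
        cc k * (C / Real.log θ) := by
      intro k
      have e3 : ∫ y in (k : ℝ)..((k + 1 : ℕ) : ℝ), ph y * ph (θ * y) =
          cc k * ∫ y in (k : ℝ)..((k + 1 : ℕ) : ℝ), ph (θ * y) := by
        rw [← intervalIntegral.integral_const_mul]
        rw [intervalIntegral.integral_of_le (by push_cast; linarith),
          intervalIntegral.integral_of_le (by push_cast; linarith),
          ← integral_Ico_eq_integral_Ioc, ← integral_Ico_eq_integral_Ioc]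
        refine setIntegral_congr_fun measurableSet_Ico fun y hy => ?_
        have h2 : ⌊y⌋₊ = k := by
          rw [Nat.floor_eq_iff (le_trans (Nat.cast_nonneg k) hy.1)]
          exact ⟨hy.1, by have := hy.2; push_cast at this; exact this⟩
        show ph y * ph (θ * y) = cc k * ph (θ * y)
        rw [ph_eq y, h2]
      have e4 : ∫ y in (k : ℝ)..((k + 1 : ℕ) : ℝ), ph (θ * y) =
          θ⁻¹ * ∫ y in (θ * k)..(θ * ((k + 1 : ℕ) : ℝ)), ph y := by
        rw [intervalIntegral.integral_comp_mul_left _ hθ0.ne', smul_eq_mul]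
      have hk : θ * ((k + 1 : ℕ) : ℝ) - θ * k = θ := by push_cast; ring
      obtain ⟨_, c2⟩ := hbt (θ * k) (θ * ((k + 1 : ℕ) : ℝ)) (by positivity) (by rw [hk]; exact hθ2)
      rw [hk] at c2
      rw [e3, e4]
      apply mul_le_mul_of_nonneg_left _ (cc_nonneg k)
      calc θ⁻¹ * ∫ y in (θ * k)..(θ * ((k + 1 : ℕ) : ℝ)), ph y ≤ θ⁻¹ * (C * θ / Real.log θ) :=
            mul_le_mul_of_nonneg_left c2 (by positivity)
        _ = C / Real.log θ := by field_simp
    have hu0 : 0 ≤ σ * s := by positivity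
    have hv0 : 0 ≤ σ * t := by
      have : 0 < t := by linarith
      positivity
    have g1 := Nat.floor_le hu0
    have g2 := Nat.le_ceil (σ * t)
    have huv : σ * s ≤ σ * t := mul_le_mul_of_nonneg_left hst.le hσ0.le
    have hab : ⌊σ * s⌋₊ ≤ ⌈σ * t⌉₊ := by
      have : (⌊σ * s⌋₊ : ℝ) ≤ (⌈σ * t⌉₊ : ℝ) := by linarith
      exact_mod_cast this
    have hint : ∫ y in (σ * s)..(σ * t), ph y * ph (θ * y) ≤
        C * (σ * (t - s)) / Real.log (σ * (t - s)) * (C / Real.log θ) := by
      calc ∫ y in (σ * s)..(σ * t), ph y * ph (θ * y) ≤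
          ∫ y in (⌊σ * s⌋₊ : ℝ)..(⌈σ * t⌉₊ : ℝ), ph y * ph (θ * y) := by
            rw [intervalIntegral.integral_of_le huv, intervalIntegral.integral_of_le (by linarith)]
            refine setIntegral_mono_set ?_ (Eventually.of_forall fun y =>
              mul_nonneg (ph_nonneg _) (ph_nonneg _)) (Set.Ioc_subset_Ioc g1 g2).eventuallyLE
            exact (intervalIntegrable_iff_integrableOn_Ioc_of_le (by linarith)).1 (integrable_pair θ _ _)
        _ = ∑ k ∈ Finset.Ico ⌊σ * s⌋₊ ⌈σ * t⌉₊, ∫ y in (k : ℝ)..((k + 1 : ℕ) : ℝ), ph y * ph (θ * y) := by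
            rw [intervalIntegral.sum_integral_adjacent_intervals_Ico hab
              fun k _ => integrable_pair θ _ _]
        _ ≤ ∑ k ∈ Finset.Ico ⌊σ * s⌋₊ ⌈σ * t⌉₊, cc k * (C / Real.log θ) :=
            Finset.sum_le_sum fun k _ => hcell k
        _ = (∑ k ∈ Finset.Ico ⌊σ * s⌋₊ ⌈σ * t⌉₊, cc k) * (C / Real.log θ) := by
            rw [Finset.sum_mul]
        _ ≤ _ := mul_le_mul_of_nonneg_right b1 (by positivity)
    rw [e1]
    calc σ⁻¹ * ∫ y in (σ * s)..(σ * t), ph y * ph (θ * y) ≤
        σ⁻¹ * ((σ * ((2 * C / Real.log α) * (t - s) * (1 / (m : ℝ)))) * (C / Real.log θ)) := by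
          apply mul_le_mul_of_nonneg_left _ (by positivity)
          exact hint.trans (mul_le_mul_of_nonneg_right hB (by positivity))
      _ = (2 * C ^ 2 / Real.log α ^ 2) * (t - s) * (1 / (m : ℝ) * (1 / (h : ℝ))) := by
          rw [hlθ]; field_simp
      _ ≤ K0 * (H + 2) * (t - s) * (1 / (m : ℝ) * (1 / (h : ℝ))) := by
          have : 0 ≤ 2 * C / Real.log α := by positivity
          have h2 : 2 * C ^ 2 / Real.log α ^ 2 ≤ K0 * (H + 2) := by
            refine le_trans ?_ hK1
            rw [hK0]; linarith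
          gcongr

end Pool.Agent.TH915.PA
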